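import Pool.Agent.V113.IntK.Main

/-!
# The integral closure of `Int_K(A)` is `Int_K(A, A')`

Question Q1 of MP_457b0e_al (and so Q2): for every integrally closed domain `D` with fraction field
`K` and every torsion-free, module-finite, not necessarily commutative `D`-algebra `A ≠ 0`, the
integral closure of `Int_K(A) = {f ∈ K[X] : f(A) ⊆ A}` in `K(X)` is
`Int_K(A, A') = {f ∈ K[X] : f(A) ⊆ A'}`, where `A'` is the set of the elements of `K ⊗[D] A`
that are integral over `D`. The definitions are in `Pool/Agent/V113/IntK/Defs.lean`.

Idea of the proof. Let `f ∈ Int_K(A, A')`, of degree `m`; then `f(D) ⊆ D`, so by a Vandermonde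
determinant `h(t) = ∏_{i<j≤m} (t^j - t^i)` lies in the conductor `a = (D[X] : f)` for every
`t ∈ D`. Hence, with `n = dim B`, the ring `D/a^n` satisfies the monic identity `h^n = 0`, and there
is a monic `φ ∈ ℤ[Y]` which lies in `(χ) + a^n D[Y]` for all monic `χ ∈ D[Y]` of degree `n`
simultaneously: it is an integral equation of the generic root of a monic polynomial of degree `n`
with generic coefficients `c` subject to `h(c)^n = 0`. As every `f(a)` is a root of some such `χ`,
`φ(f(a))` lies in `∑_{i<n} a^n f(a)^i ⊆ A`, so `φ(f) ∈ Int_K(A)` and `f` is integral over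
`Int_K(A)`.
-/

set_option autoImplicit false

open Polynomial Pool.Agent.V113.IntK

namespace Pool.Agent.Results.MP_457b0e_al.IntegralClosure

universe u v w

/-- For every integrally closed domain `D` with fraction field `K` and every nonzero `D`-algebra `A`
that is torsion-free and finitely generated as a `D`-module, the integral closure of `Int_K(A)` in
`K(X)` is `Int_K(A, A')`. -/
theorem result (D : Type u) (K : Type v) (A : Type w) [CommRing D] [IsDomain D]
    [IsIntegrallyClosed D] [Field K] [Algebra D K] [IsFractionRing D K]
    [Ring A] [Nontrivial A] [Algebra D A] [Module.Finite D A] [Module.IsTorsionFree D A] :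
    (integralClosure (IntK D K A) (RatFunc K) : Set (RatFunc K)) =
      algebraMap K[X] (RatFunc K) '' IntKPrime D K A := by
  ext g
  exact main D K A g

end Pool.Agent.Results.MP_457b0e_al.IntegralClosure
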